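import Mathlib
import Pool.Agent.H33.G.R_seed8.H705R2.MLogF
import Pool.Agent.H33.G.R_seed8.H381R2.HR.A1
import Pool.Agent.H33.G.R_seed8.H442R2.EHI.Defs

/-! Prime number theorem with error `N / log^U N` for every `U` (helper381). -/

set_option autoImplicit false

open Finset ArithmeticFunction

namespace Pool.Agent.H442R2.EHI

namespace PntErrAux

open Pool.Agent.H381R2.HR.A1aux

theorem mertMU (V : ℕ) : ∃ N₀ : ℕ, ∀ m : ℕ, N₀ ≤ m + 1 →
    |∑ n ∈ Ioc 0 m, ((moebius : ArithmeticFunction ℤ) : ArithmeticFunction ℝ) n| ≤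
      ((m : ℝ) + 1) / (Real.log ((m : ℝ) + 1)) ^ V := by
  obtain ⟨N₀, h⟩ := Pool.Agent.H705R2.MSW.swMu V 0
  refine ⟨N₀, fun m hm => ?_⟩
  have h1 := h (m + 1) hm 1 0 le_rfl (by simp)
  have e : ∑ n ∈ (range (m + 1)).filter (fun n => n % 1 = 0), ((moebius n : ℤ) : ℝ) =
      ∑ n ∈ Ioc 0 m, ((moebius : ArithmeticFunction ℤ) : ArithmeticFunction ℝ) n := by
    rw [filter_true_of_mem (fun n _ => Nat.mod_one n)]
    rw [sum_range_succ']
    simp only [intCoe_apply]
    have : Ioc 0 m = (range m).image (fun n => n + 1) := by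
      ext i
      simp only [mem_Ioc, mem_image, mem_range]
      constructor
      · intro hi; exact ⟨i - 1, by omega, by omega⟩
      · rintro ⟨j, hj, rfl⟩; omega
    rw [this, sum_image (fun a _ b _ hab => by simpa using hab)]
    simp
  rw [e] at h1
  push_cast at h1
  exact h1

theorem growthU (U N₀ : ℕ) : ∃ N₁ : ℕ, ∀ N : ℕ, N₁ ≤ N → 2 ≤ Real.log N ∧
    2 * (Real.log N) ^ (2 * U) ≤ √(N : ℝ) ∧ (N₀ : ℝ) ≤ √(N : ℝ) ∧ 3 ≤ N := by
  have t1 : Filter.Tendsto (fun N : ℕ => Real.log (N : ℝ)) Filter.atTop Filter.atTop :=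
    Real.tendsto_log_atTop.comp tendsto_natCast_atTop_atTop
  have t2 : Filter.Tendsto (fun N : ℕ => √(N : ℝ)) Filter.atTop Filter.atTop :=
    Real.tendsto_sqrt_atTop.comp tendsto_natCast_atTop_atTop
  have t3 : ∀ᶠ x : ℝ in Filter.atTop, 2 * (Real.log x) ^ (2 * U) ≤ √x := by
    have := (isLittleO_log_rpow_rpow_atTop (2 * U : ℕ) (show (0 : ℝ) < 1 / 2 by norm_num)).bound
      (c := 1 / 2) (by norm_num)
    filter_upwards [this, Filter.eventually_ge_atTop (1 : ℝ)] with x hx hx1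
    have hl : 0 ≤ Real.log x := Real.log_nonneg hx1
    rw [Real.rpow_natCast, Real.norm_of_nonneg (by positivity), Real.norm_of_nonneg (by positivity),
      ← Real.sqrt_eq_rpow] at hx
    linarith
  have t4 := tendsto_natCast_atTop_atTop (R := ℝ) |>.eventually t3
  have := ((t1.eventually_ge_atTop 2).and (t4.and ((t2.eventually_ge_atTop (N₀ : ℝ)).and
    (Filter.eventually_ge_atTop 3)))).exists_forall_of_atTop
  obtain ⟨N₁, h⟩ := this
  exact ⟨N₁, fun N hN => ⟨(h N hN).1, (h N hN).2.1, (h N hN).2.2.1, (h N hN).2.2.2⟩⟩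

theorem largeU (U : ℕ) : ∃ C : ℝ, 0 < C ∧ ∃ N₁ : ℕ, ∀ N : ℕ, N₁ ≤ N →
    |Chebyshev.psi (N : ℝ) - N| ≤ C * (N / Real.log N ^ U) + 2 := by
  obtain ⟨N₀, hM⟩ := mertMU (3 * U)
  obtain ⟨N₁, hg⟩ := growthU U N₀
  refine ⟨33 + 16 * 2 ^ (3 * U), by positivity, N₁, fun N hN => ?_⟩
  obtain ⟨g1, g2, g3, g4⟩ := hg N hN
  set L := Real.log N with hL
  have hL0 : 0 < L := by linarith
  have hN0 : (0 : ℝ) < N := by exact_mod_cast (by omega : 0 < N)
  have hsN : 0 < √(N : ℝ) := by positivity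
  have hss := Real.mul_self_sqrt hN0.le
  have hLU1 : 1 ≤ L ^ (2 * U) := one_le_pow₀ (by linarith)
  set B := ⌈L ^ (2 * U)⌉₊ with hB
  have hB1 : L ^ (2 * U) ≤ B := Nat.le_ceil _
  have hB2 : (B : ℝ) ≤ 2 * L ^ (2 * U) := by
    have := Nat.ceil_lt_add_one (show 0 ≤ L ^ (2 * U) by positivity)
    linarith
  have hB0 : (0 : ℝ) < B := by linarith
  have hBn : 0 < B := by exact_mod_cast hB0
  have hBs : (B : ℝ) ≤ √(N : ℝ) := hB2.trans g2
  have hsqB : L ^ U ≤ √(B : ℝ) := by
    apply Real.le_sqrt_of_sq_le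
    calc (L ^ U) ^ 2 = L ^ (2 * U) := by rw [← pow_mul, mul_comm]
      _ ≤ B := hB1
  set A := N / B with hA
  have hA1 : (A : ℝ) ≤ N / B := Nat.cast_div_le
  have e1 : A * B ≤ N := Nat.div_mul_le_self N B
  have e2 : N < (A + 1) * (B + 1) := by
    have := Nat.lt_div_mul_add (a := N) (b := B) hBn
    nlinarith
  have hyp := hyperbola (((moebius : ArithmeticFunction ℤ) : ArithmeticFunction ℝ))
    Pool.Agent.H381R2.HR.A1aux.ff N A B e1 e2
  have hLHS : ∑ n ∈ Ioc 0 N, (((moebius : ArithmeticFunction ℤ) : ArithmeticFunction ℝ) *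
      Pool.Agent.H381R2.HR.A1aux.ff) n =
      Chebyshev.psi (N : ℝ) - N + 2 * Real.eulerMascheroniConstant := by
    have h0 : ∑ n ∈ Ioc 0 N, (((moebius : ArithmeticFunction ℤ) : ArithmeticFunction ℝ) *
        Pool.Agent.H381R2.HR.A1aux.ff) n =
        ∑ n ∈ Ioc 0 N, vonMangoldt n -
        ∑ n ∈ Ioc 0 N, ((zeta : ArithmeticFunction ℕ) : ArithmeticFunction ℝ) n +
        ∑ n ∈ Ioc 0 N, (2 * Real.eulerMascheroniConstant) * (1 : ArithmeticFunction ℝ) n := by
      rw [conv, ← sum_sub_distrib, ← sum_add_distrib]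
      rfl
    have h1 : ∑ n ∈ Ioc 0 N, (1 : ArithmeticFunction ℝ) n = 1 := by
      rw [sum_eq_single 1]
      · simp
      · intro b _ hb
        rw [one_apply_ne hb]
      · intro h
        exfalso; apply h; rw [mem_Ioc]; omega
    rw [h0, psi_eq, zsum, ← mul_sum, h1, mul_one]
  rw [hLHS] at hyp
  have p1 : |∑ a ∈ Ioc 0 A, ((moebius : ArithmeticFunction ℤ) : ArithmeticFunction ℝ) a *
      ∑ b ∈ Ioc 0 (N / a), Pool.Agent.H381R2.HR.A1aux.ff b| ≤ 22 * (N / L ^ U) := by
    calc _ ≤ ∑ a ∈ Ioc 0 A, |((moebius : ArithmeticFunction ℤ) : ArithmeticFunction ℝ) a *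
          ∑ b ∈ Ioc 0 (N / a), Pool.Agent.H381R2.HR.A1aux.ff b| := abs_sum_le_sum_abs _ _
      _ ≤ ∑ a ∈ Ioc 0 A, 11 * √(N : ℝ) * (1 / √(a : ℝ)) := by
          refine sum_le_sum fun a ha => ?_
          rw [mem_Ioc] at ha
          have haN : a ≤ N := ha.2.trans (Nat.div_le_self _ _)
          have h1 : 1 ≤ N / a := by
            rw [Nat.le_div_iff_mul_le ha.1]; omega
          rw [abs_mul]
          calc _ ≤ 1 * (11 * √((N / a : ℕ) : ℝ)) :=
                mul_le_mul (moeb_abs a) (fsum _ h1) (abs_nonneg _) zero_le_one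
            _ ≤ 1 * (11 * √((N : ℝ) / a)) := by
                gcongr
                exact Nat.cast_div_le
            _ = _ := by
                rw [Real.sqrt_div hN0.le]; ring
      _ = 11 * √(N : ℝ) * ∑ a ∈ Ioc 0 A, 1 / √(a : ℝ) := by rw [mul_sum]
      _ ≤ 11 * √(N : ℝ) * (2 * √(A : ℝ)) := by
          gcongr; exact sum_inv_sqrt A
      _ ≤ 11 * √(N : ℝ) * (2 * (√(N : ℝ) / L ^ U)) := by
          gcongr
          calc √(A : ℝ) ≤ √(N / B : ℝ) := Real.sqrt_le_sqrt hA1
            _ = √(N : ℝ) / √(B : ℝ) := Real.sqrt_div hN0.le _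
            _ ≤ √(N : ℝ) / L ^ U := by gcongr
      _ = 22 * ((√(N : ℝ) * √(N : ℝ)) / L ^ U) := by ring
      _ = _ := by rw [hss]
  have p2 : |∑ b ∈ Ioc 0 B, Pool.Agent.H381R2.HR.A1aux.ff b * ∑ a ∈ Ioc 0 (N / b),
      ((moebius : ArithmeticFunction ℤ) : ArithmeticFunction ℝ) a| ≤ 16 * 2 ^ (3 * U) * (N / L ^ U) := by
    calc _ ≤ ∑ b ∈ Ioc 0 B, |Pool.Agent.H381R2.HR.A1aux.ff b * ∑ a ∈ Ioc 0 (N / b),
          ((moebius : ArithmeticFunction ℤ) : ArithmeticFunction ℝ) a| := abs_sum_le_sum_abs _ _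
      _ ≤ ∑ b ∈ Ioc 0 B, 8 * 2 ^ (3 * U) * N / L ^ (3 * U) := by
          refine sum_le_sum fun b hb => ?_
          rw [mem_Ioc] at hb
          have hb0 : (0 : ℝ) < b := by exact_mod_cast hb.1
          have hbB : (b : ℝ) ≤ √(N : ℝ) := le_trans (by exact_mod_cast hb.2) hBs
          have h3 : (N : ℝ) / b ≤ ((N / b : ℕ) : ℝ) + 1 := by
            rw [div_le_iff₀ hb0]
            have := Nat.lt_div_mul_add (a := N) (b := b) hb.1
            have h4 : (N : ℝ) < ((N / b : ℕ) : ℝ) * b + b := by exact_mod_cast this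
            linarith
          have h4 : √(N : ℝ) ≤ (N : ℝ) / b := by
            rw [le_div_iff₀ hb0]
            calc √(N : ℝ) * b ≤ √(N : ℝ) * √(N : ℝ) := by gcongr
              _ = N := hss
          have h5 : N₀ ≤ N / b + 1 := by
            have : (N₀ : ℝ) ≤ ((N / b : ℕ) : ℝ) + 1 := g3.trans (h4.trans h3)
            exact_mod_cast this
          have h6 := hM (N / b) h5
          have h7 : L / 2 ≤ Real.log (((N / b : ℕ) : ℝ) + 1) := by
            rw [hL, ← Real.log_sqrt hN0.le]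
            exact Real.log_le_log hsN (h4.trans h3)
          have h8 : ((N / b : ℕ) : ℝ) + 1 ≤ 2 * (N / b) := by
            have h9 : ((N / b : ℕ) : ℝ) ≤ N / b := Nat.cast_div_le
            have h10 : (1 : ℝ) ≤ N / b := by
              rw [le_div_iff₀ hb0, one_mul]
              refine hbB.trans ?_
              rw [Real.sqrt_le_left hN0.le]
              have : (1 : ℝ) ≤ N := by exact_mod_cast (by omega : 1 ≤ N)
              nlinarith
            linarith
          rw [abs_mul]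
          calc _ ≤ (4 * b) * ((2 * (N / b)) / (L / 2) ^ (3 * U)) := by
                refine mul_le_mul (ff_abs b hb.1) (h6.trans ?_) (abs_nonneg _) (by positivity)
                have : 0 < L / 2 := by linarith
                gcongr
            _ = 8 * 2 ^ (3 * U) * N / L ^ (3 * U) := by
                have : L ≠ 0 := by linarith
                rw [div_pow]
                field_simp
                norm_num
      _ = B * (8 * 2 ^ (3 * U) * N / L ^ (3 * U)) := by simp
      _ ≤ (2 * L ^ (2 * U)) * (8 * 2 ^ (3 * U) * N / L ^ (3 * U)) := by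
          gcongr
      _ = _ := by
          have : L ≠ 0 := by linarith
          have e3 : L ^ (3 * U) = L ^ (2 * U) * L ^ U := by rw [← pow_add]; congr 1; ring
          rw [e3]
          field_simp
          norm_num
  have p3 : |(∑ a ∈ Ioc 0 A, ((moebius : ArithmeticFunction ℤ) : ArithmeticFunction ℝ) a) *
      ∑ b ∈ Ioc 0 B, Pool.Agent.H381R2.HR.A1aux.ff b| ≤ 11 * (N / L ^ U) := by
    rw [abs_mul]
    have h1 : |∑ a ∈ Ioc 0 A, ((moebius : ArithmeticFunction ℤ) : ArithmeticFunction ℝ) a| ≤ A := by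
      refine (abs_sum_le_sum_abs _ _).trans ?_
      refine (sum_le_sum fun a _ => moeb_abs a).trans ?_
      simp
    have hsB : 0 < √(B : ℝ) := by positivity
    calc _ ≤ (N / B) * (11 * √(B : ℝ)) :=
          mul_le_mul (h1.trans hA1) (fsum B hBn) (abs_nonneg _) (by positivity)
      _ = 11 * (N / √(B : ℝ)) := by
          have := Real.mul_self_sqrt hB0.le
          field_simp
          nlinarith
      _ ≤ _ := by gcongr
  have hγ1 := Real.one_half_lt_eulerMascheroniConstant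
  have hγ2 := Real.eulerMascheroniConstant_lt_two_thirds
  rw [abs_le] at *
  constructor <;> linarith [p1.1, p1.2, p2.1, p2.2, p3.1, p3.2]

/-- `log^V y ≤ C √y`. -/
theorem log_pow_le (V : ℕ) : ∃ C : ℝ, 0 < C ∧ ∀ y : ℕ, 1 ≤ y → Real.log y ^ V ≤ C * √(y : ℝ) := by
  refine ⟨(2 * V + 1) ^ V, by positivity, fun y hy => ?_⟩
  have hy0 : (0 : ℝ) < y := by exact_mod_cast hy
  have hy1 : (1 : ℝ) ≤ y := by exact_mod_cast hy
  have hl : 0 ≤ Real.log y := Real.log_nonneg hy1
  rcases Nat.eq_zero_or_pos V with rfl | hV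
  · simp only [pow_zero, one_mul, CharP.cast_eq_zero, mul_zero, zero_add]
    rw [Real.one_le_sqrt]; exact hy1
  have hV0 : (0 : ℝ) < V := by exact_mod_cast hV
  have h1 : Real.log y ≤ (2 * V + 1) * (y : ℝ) ^ (1 / (2 * V : ℝ)) := by
    have h2 := Real.log_le_sub_one_of_pos (x := (y : ℝ) ^ (1 / (2 * V : ℝ))) (by positivity)
    rw [Real.log_rpow hy0] at h2
    have h3 : Real.log y = (2 * V) * (1 / (2 * V : ℝ) * Real.log y) := by field_simp
    have h4 : 0 < (y : ℝ) ^ (1 / (2 * V : ℝ)) := by positivity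
    rw [h3]
    nlinarith
  calc Real.log y ^ V ≤ ((2 * V + 1) * (y : ℝ) ^ (1 / (2 * V : ℝ))) ^ V := by gcongr
    _ = (2 * V + 1) ^ V * ((y : ℝ) ^ (1 / (2 * V : ℝ))) ^ V := by rw [mul_pow]
    _ = _ := by
        congr 1
        rw [← Real.rpow_natCast, ← Real.rpow_mul hy0.le, Real.sqrt_eq_rpow]
        congr 1
        field_simp

/-- `theta` version. -/
theorem thetaU (U : ℕ) : ∃ C : ℝ, 0 < C ∧ ∀ N : ℕ, 2 ≤ N →
    |Chebyshev.theta (N : ℝ) - N| ≤ C * (N / Real.log N ^ U) := by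
  obtain ⟨C, hC, N₁, h⟩ := largeU U
  obtain ⟨C1, h1⟩ := Chebyshev.psi_sub_theta_le_mul_sqrt
  obtain ⟨C2, hC2, h2⟩ := log_pow_le U
  have hp : 0 ≤ Chebyshev.psi (N₁ : ℝ) := Chebyshev.psi_nonneg _
  refine ⟨C + (|C1| + 2 + (Chebyshev.psi (N₁ : ℝ) + N₁)) * C2, by positivity, fun N hN => ?_⟩
  have hN0 : (0 : ℝ) < N := by exact_mod_cast (by omega : 0 < N)
  have hN1 : (1 : ℝ) ≤ N := by exact_mod_cast (by omega : 1 ≤ N)
  have hL : 0 < Real.log N := Real.log_pos (by exact_mod_cast (by omega : 1 < N))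
  have hs1 : 1 ≤ √(N : ℝ) := by rw [Real.one_le_sqrt]; exact hN1
  have hss := Real.mul_self_sqrt hN0.le
  have hsq : √(N : ℝ) ≤ C2 * (N / Real.log N ^ U) := by
    rw [← mul_div_assoc, le_div_iff₀ (by positivity)]
    calc √(N : ℝ) * Real.log N ^ U ≤ √(N : ℝ) * (C2 * √(N : ℝ)) := by
          gcongr; exact h2 N (by omega)
      _ = C2 * (√(N : ℝ) * √(N : ℝ)) := by ring
      _ = _ := by rw [hss]
  have hq : 0 < (N : ℝ) / Real.log N ^ U := by positivity
  have hpt := h1 N
  have hpt0 := Chebyshev.theta_le_psi N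
  have hC1 : C1 * √(N : ℝ) ≤ |C1| * √(N : ℝ) :=
    mul_le_mul_of_nonneg_right (le_abs_self C1) (by positivity)
  have hpsi : |Chebyshev.psi (N : ℝ) - N| ≤ C * (N / Real.log N ^ U) +
      (2 + (Chebyshev.psi (N₁ : ℝ) + N₁)) * √(N : ℝ) := by
    rcases le_or_gt N₁ N with h3 | h3
    · refine (h N h3).trans ?_
      have : (0 : ℝ) ≤ N₁ := by positivity
      nlinarith
    · have h2 : Chebyshev.psi (N : ℝ) ≤ Chebyshev.psi (N₁ : ℝ) :=
        Chebyshev.psi_mono (by exact_mod_cast h3.le)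
      have h3 : (N : ℝ) ≤ N₁ := by exact_mod_cast h3.le
      have h4 : 0 ≤ Chebyshev.psi (N : ℝ) := Chebyshev.psi_nonneg _
      have h5 : 0 ≤ C * (N / Real.log N ^ U) := by positivity
      calc |Chebyshev.psi (N : ℝ) - N| ≤ Chebyshev.psi (N₁ : ℝ) + N₁ := by
            rw [abs_le]; constructor <;> linarith
        _ ≤ _ := by nlinarith
  have key : |Chebyshev.theta (N : ℝ) - N| ≤ C * (N / Real.log N ^ U) +
      (|C1| + 2 + (Chebyshev.psi (N₁ : ℝ) + N₁)) * √(N : ℝ) := by
    rw [abs_le] at hpsi ⊢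
    constructor
    · nlinarith [hpsi.1, hpsi.2]
    · nlinarith [hpsi.1, hpsi.2, mul_nonneg (abs_nonneg C1) (Real.sqrt_nonneg (N : ℝ))]
  refine key.trans ?_
  have hK : 0 ≤ |C1| + 2 + (Chebyshev.psi (N₁ : ℝ) + N₁) := by positivity
  nlinarith [mul_le_mul_of_nonneg_left hsq hK]

/-- number of primes up to `y` -/
noncomputable def pc (y : ℕ) : ℝ := (((Icc 1 y).filter (fun p : ℕ => p.Prime)).card : ℝ)

theorem pc_succ (y : ℕ) : pc (y + 1) = pc y + if (y + 1).Prime then 1 else 0 := by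
  unfold pc
  have : Icc 1 (y + 1) = insert (y + 1) (Icc 1 y) := by
    ext i; simp only [mem_Icc, mem_insert]; omega
  rw [this, filter_insert]
  split_ifs with h
  · rw [card_insert_of_notMem (by simp)]
    push_cast; ring
  · simp

theorem theta_succ (y : ℕ) : Chebyshev.theta ((y + 1 : ℕ) : ℝ) = Chebyshev.theta (y : ℝ) +
    if (y + 1).Prime then Real.log ((y + 1 : ℕ) : ℝ) else 0 := by
  have e : ∀ m : ℕ, Chebyshev.theta (m : ℝ) = ∑ p ∈ Ioc 0 m with p.Prime, Real.log p := by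
    intro m
    simp [Chebyshev.theta]
  rw [e, e]
  have : Ioc 0 (y + 1) = insert (y + 1) (Ioc 0 y) := by
    ext i; simp only [mem_Ioc, mem_insert]; omega
  rw [this, filter_insert]
  split_ifs with h
  · rw [sum_insert (by simp)]
    ring
  · simp

theorem lis_succ (y : ℕ) (hy : 1 ≤ y) : lis (y + 1) = lis y + 1 / Real.log ((y + 1 : ℕ) : ℝ) := by
  unfold lis
  rw [sum_Icc_succ_top (by omega)]

theorem abel (y : ℕ) (hy : 2 ≤ y) :
    |pc y - lis y - (Chebyshev.theta (y : ℝ) - y) / Real.log y| ≤ 4 +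
      ∑ n ∈ Ico 2 y, |Chebyshev.theta (n : ℝ) - n| * (1 / Real.log n - 1 / Real.log ((n + 1 : ℕ) : ℝ)) := by
  induction y, hy using Nat.le_induction with
  | base =>
    have h1 : pc 2 = 1 := by
      unfold pc
      have : (Icc 1 2).filter (fun p : ℕ => p.Prime) = {2} := by decide
      rw [this]; simp
    have h2 : lis 2 = 1 / Real.log 2 := by
      unfold lis; simp
    have h3 : Chebyshev.theta ((2 : ℕ) : ℝ) = Real.log 2 := by
      have h4 := theta_succ 1
      have h5 := theta_succ 0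
      have h6 : Chebyshev.theta ((0 : ℕ) : ℝ) = 0 := by simp [Chebyshev.theta]
      rw [h6] at h5
      rw [if_neg (by norm_num)] at h5
      rw [if_pos (by norm_num)] at h4
      norm_num at h4 h5 ⊢
      rw [h4]
    rw [h1, h2, h3]
    have hlog2 : 0.69 < Real.log 2 := by linarith [Real.log_two_gt_d9]
    have e : 1 - 1 / Real.log 2 - (Real.log 2 - (2 : ℕ)) / Real.log ((2 : ℕ) : ℝ) = 1 / Real.log 2 := by
      push_cast
      have : Real.log 2 ≠ 0 := by linarith
      field_simp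
      ring
    rw [e]
    simp only [Ico_self, sum_empty, add_zero]
    rw [abs_of_nonneg (by positivity), div_le_iff₀ (by linarith)]
    linarith
  | succ y hy ih =>
    rw [sum_Ico_succ_top hy]
    have hy0 : (1 : ℝ) < y := by exact_mod_cast (by omega : 1 < y)
    have hl : 0 < Real.log y := Real.log_pos hy0
    have hl1 : 0 < Real.log ((y + 1 : ℕ) : ℝ) := Real.log_pos (by push_cast; linarith)
    have hll : Real.log y ≤ Real.log ((y + 1 : ℕ) : ℝ) :=
      Real.log_le_log (by linarith) (by push_cast; linarith)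
    have hd : 0 ≤ 1 / Real.log y - 1 / Real.log ((y + 1 : ℕ) : ℝ) := by
      rw [sub_nonneg]
      exact one_div_le_one_div_of_le hl hll
    have e : pc (y + 1) - lis (y + 1) -
        (Chebyshev.theta ((y + 1 : ℕ) : ℝ) - (y + 1 : ℕ)) / Real.log ((y + 1 : ℕ) : ℝ) =
        (pc y - lis y - (Chebyshev.theta (y : ℝ) - y) / Real.log y) +
        (Chebyshev.theta (y : ℝ) - y) * (1 / Real.log y - 1 / Real.log ((y + 1 : ℕ) : ℝ)) := by
      rw [pc_succ, lis_succ y (by omega), theta_succ]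
      split_ifs with h
      · push_cast at hl1 ⊢
        field_simp
        ring
      · push_cast at hl1 ⊢
        field_simp
        ring
    rw [e]
    refine (abs_add_le _ _).trans ?_
    rw [abs_mul, abs_of_nonneg hd]
    linarith

theorem step (n : ℕ) (hn : 2 ≤ n) :
    1 / Real.log n - 1 / Real.log ((n + 1 : ℕ) : ℝ) ≤ 1 / (n * Real.log n ^ 2) := by
  have hn0 : (1 : ℝ) < n := by exact_mod_cast (by omega : 1 < n)
  have hl : 0 < Real.log n := Real.log_pos hn0
  have hl1 : 0 < Real.log ((n + 1 : ℕ) : ℝ) := Real.log_pos (by push_cast; linarith)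
  have hll : Real.log n ≤ Real.log ((n + 1 : ℕ) : ℝ) :=
    Real.log_le_log (by linarith) (by push_cast; linarith)
  have h3 : Real.log ((n + 1 : ℕ) : ℝ) - Real.log n ≤ 1 / n := by
    rw [← Real.log_div (by positivity) (by positivity)]
    have := Real.log_le_sub_one_of_pos (x := (((n + 1 : ℕ) : ℝ)) / n) (by positivity)
    refine this.trans (le_of_eq ?_)
    push_cast
    field_simp
    ring
  calc 1 / Real.log n - 1 / Real.log ((n + 1 : ℕ) : ℝ)
      = (Real.log ((n + 1 : ℕ) : ℝ) - Real.log n) / (Real.log n * Real.log ((n + 1 : ℕ) : ℝ)) := by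
        field_simp
    _ ≤ (1 / n) / (Real.log n * Real.log n) := by gcongr
    _ = _ := by
        field_simp

/-- `∑_{2 ≤ n < y} 1 / log^V n ≤ C y / log^V y` -/
theorem sumlog (V : ℕ) : ∃ C : ℝ, 0 < C ∧ ∀ y : ℕ, 2 ≤ y →
    ∑ n ∈ Ico 2 y, 1 / Real.log n ^ V ≤ C * (y / Real.log y ^ V) := by
  obtain ⟨C, hC, h⟩ := log_pow_le V
  have hlog2 : 0 < Real.log 2 := Real.log_pos (by norm_num)
  refine ⟨2 ^ V + C / Real.log 2 ^ V * 2, by positivity, fun y hy => ?_⟩
  have hy1 : (1 : ℝ) < y := by exact_mod_cast (by omega : 1 < y)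
  have hy0 : (0 : ℝ) < y := by linarith
  have hly : 0 < Real.log y := Real.log_pos hy1
  have hss := Real.mul_self_sqrt hy0.le
  set s := Nat.sqrt y with hs
  have hs1 : (s : ℝ) ≤ √(y : ℝ) := by
    apply Real.le_sqrt_of_sq_le
    rw [sq]; exact_mod_cast Nat.sqrt_le y
  have hs2 : √(y : ℝ) < s + 1 := by
    rw [Real.sqrt_lt' (by positivity), sq]
    exact_mod_cast Nat.lt_succ_sqrt y
  have hss1 : 1 ≤ √(y : ℝ) := by rw [Real.one_le_sqrt]; linarith
  have pt : ∀ n ∈ Ico 2 y, 1 / Real.log n ^ V ≤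
      (if n ≤ s then 1 / Real.log 2 ^ V else 0) + 2 ^ V / Real.log y ^ V := by
    intro n hn
    rw [mem_Ico] at hn
    have hn2 : (2 : ℝ) ≤ n := by exact_mod_cast hn.1
    have hln : 0 < Real.log n := Real.log_pos (by linarith)
    split_ifs with h1
    · have : 1 / Real.log n ^ V ≤ 1 / Real.log 2 ^ V := by
        apply one_div_le_one_div_of_le (by positivity)
        gcongr
      have : 0 ≤ 2 ^ V / Real.log y ^ V := by positivity
      linarith
    · rw [zero_add]
      have h2 : √(y : ℝ) ≤ n := by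
        have : s + 1 ≤ n := by omega
        have : (s : ℝ) + 1 ≤ n := by exact_mod_cast this
        linarith
      have h3 : Real.log y / 2 ≤ Real.log n := by
        rw [← Real.log_sqrt hy0.le]
        exact Real.log_le_log (by positivity) h2
      calc 1 / Real.log n ^ V ≤ 1 / (Real.log y / 2) ^ V := by
            gcongr
        _ = _ := by rw [div_pow]; field_simp
  have hsq : √(y : ℝ) ≤ C * (y / Real.log y ^ V) := by
    rw [← mul_div_assoc, le_div_iff₀ (by positivity)]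
    calc √(y : ℝ) * Real.log y ^ V ≤ √(y : ℝ) * (C * √(y : ℝ)) := by
          gcongr; exact h y (by omega)
      _ = C * (√(y : ℝ) * √(y : ℝ)) := by ring
      _ = _ := by rw [hss]
  have c1 : (((Ico 2 y).filter (fun n => n ≤ s)).card : ℝ) ≤ s := by
    have : (Ico 2 y).filter (fun n => n ≤ s) ⊆ Icc 1 s := by
      intro n hn
      simp only [mem_filter, mem_Ico, mem_Icc] at *
      omega
    have := card_le_card this
    rw [Nat.card_Icc] at this
    exact_mod_cast this
  have c2 : (((Ico 2 y)).card : ℝ) ≤ y := by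
    rw [Nat.card_Ico]
    exact_mod_cast Nat.sub_le _ _
  calc ∑ n ∈ Ico 2 y, 1 / Real.log n ^ V
      ≤ ∑ n ∈ Ico 2 y, ((if n ≤ s then 1 / Real.log 2 ^ V else 0) + 2 ^ V / Real.log y ^ V) :=
        sum_le_sum pt
    _ = (((Ico 2 y).filter (fun n => n ≤ s)).card : ℝ) * (1 / Real.log 2 ^ V) +
        (((Ico 2 y)).card : ℝ) * (2 ^ V / Real.log y ^ V) := by
        rw [sum_add_distrib, ← sum_filter, sum_const, sum_const, nsmul_eq_mul, nsmul_eq_mul]
    _ ≤ √(y : ℝ) * (1 / Real.log 2 ^ V) + y * (2 ^ V / Real.log y ^ V) := by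
        gcongr
        exact c1.trans hs1
    _ ≤ (C * (y / Real.log y ^ V)) * (1 / Real.log 2 ^ V) + y * (2 ^ V / Real.log y ^ V) := by
        gcongr
    _ = (2 ^ V + C / Real.log 2 ^ V) * (y / Real.log y ^ V) := by ring
    _ ≤ _ := by
        have : 0 < C / Real.log 2 ^ V := by positivity
        gcongr
        linarith

end PntErrAux

open PntErrAux in
/-- T7 (PntErr.lean): prime number theorem with error `y / log^U y`. -/
theorem pnt_err (U : ℕ) : ∃ C : ℝ, ∀ y : ℕ, 2 ≤ y →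
    |(((Icc 1 y).filter (fun p : ℕ => p.Prime)).card : ℝ) - lis y| ≤ C * y / Real.log y ^ U := by
  obtain ⟨C, hC, h⟩ := thetaU U
  obtain ⟨C1, hC1, h1⟩ := sumlog (U + 2)
  obtain ⟨C2, hC2, h2⟩ := log_pow_le U
  have hlog2 : 0 < Real.log 2 := Real.log_pos (by norm_num)
  refine ⟨C / Real.log 2 + 4 * C2 + C * (C1 / Real.log 2 ^ 2), fun y hy => ?_⟩
  have hy1 : (1 : ℝ) < y := by exact_mod_cast (by omega : 1 < y)
  have hy2 : (2 : ℝ) ≤ y := by exact_mod_cast hy
  have hy0 : (0 : ℝ) < y := by linarith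
  have hly : 0 < Real.log y := Real.log_pos hy1
  have hll : Real.log 2 ≤ Real.log y := Real.log_le_log (by norm_num) hy2
  have hss := Real.mul_self_sqrt hy0.le
  have hss1 : 1 ≤ √(y : ℝ) := by rw [Real.one_le_sqrt]; linarith
  have hsq : 1 ≤ C2 * (y / Real.log y ^ U) := by
    refine hss1.trans ?_
    rw [← mul_div_assoc, le_div_iff₀ (by positivity)]
    calc √(y : ℝ) * Real.log y ^ U ≤ √(y : ℝ) * (C2 * √(y : ℝ)) := by
          gcongr; exact h2 y (by omega)
      _ = C2 * (√(y : ℝ) * √(y : ℝ)) := by ring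
      _ = _ := by rw [hss]
  have ha := abel y hy
  have hE : |(Chebyshev.theta (y : ℝ) - y) / Real.log y| ≤ C / Real.log 2 * (y / Real.log y ^ U) := by
    rw [abs_div, abs_of_pos hly]
    calc |Chebyshev.theta (y : ℝ) - y| / Real.log y ≤ (C * (y / Real.log y ^ U)) / Real.log 2 := by
          gcongr
          exact h y hy
      _ = _ := by ring
  have hS : ∑ n ∈ Ico 2 y, |Chebyshev.theta (n : ℝ) - n| *
      (1 / Real.log n - 1 / Real.log ((n + 1 : ℕ) : ℝ)) ≤ C * (C1 / Real.log 2 ^ 2) * (y / Real.log y ^ U) := by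
    calc _ ≤ ∑ n ∈ Ico 2 y, C * (1 / Real.log n ^ (U + 2)) := by
          refine sum_le_sum fun n hn => ?_
          rw [mem_Ico] at hn
          have hn1 : (1 : ℝ) < n := by exact_mod_cast (by omega : 1 < n)
          have hln : 0 < Real.log n := Real.log_pos hn1
          calc _ ≤ (C * (n / Real.log n ^ U)) * (1 / (n * Real.log n ^ 2)) := by
                refine (mul_le_mul_of_nonneg_left (step n hn.1) (abs_nonneg _)).trans ?_
                gcongr
                exact h n hn.1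
            _ = _ := by
                rw [pow_add]
                field_simp
      _ = C * ∑ n ∈ Ico 2 y, (1 / Real.log n ^ (U + 2)) := by rw [mul_sum]
      _ ≤ C * (C1 * (y / Real.log y ^ (U + 2))) := by
          gcongr
          exact h1 y hy
      _ = C * (C1 * ((y / Real.log y ^ U) / Real.log y ^ 2)) := by
          rw [pow_add]; field_simp
      _ ≤ C * (C1 * ((y / Real.log y ^ U) / Real.log 2 ^ 2)) := by
          gcongr
      _ = _ := by ring
  have e : ∀ P : ℝ, |P| ≤ |P - (Chebyshev.theta (y : ℝ) - y) / Real.log y| +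
      |(Chebyshev.theta (y : ℝ) - y) / Real.log y| := by
    intro P
    calc |P| = |(P - (Chebyshev.theta (y : ℝ) - y) / Real.log y) +
          (Chebyshev.theta (y : ℝ) - y) / Real.log y| := by ring_nf
      _ ≤ _ := abs_add_le _ _
  refine (e _).trans ?_
  have hfin : 4 ≤ 4 * C2 * (y / Real.log y ^ U) := by linarith
  change |pc y - lis y - (Chebyshev.theta (y : ℝ) - y) / Real.log y| + _ ≤ _
  calc _ ≤ (4 + C * (C1 / Real.log 2 ^ 2) * (y / Real.log y ^ U)) +
        C / Real.log 2 * (y / Real.log y ^ U) := by linarith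
    _ ≤ (C / Real.log 2 + 4 * C2 + C * (C1 / Real.log 2 ^ 2)) * (y / Real.log y ^ U) := by linarith
    _ = _ := by ring

end Pool.Agent.H442R2.EHI
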